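import Mathlib
import Pool.Agent.H25.Shc3

namespace Pool.Agent.Results.MP_8ac08c_co.OddOrder

open Finset

/-- `0` is not in the restricted signed `h`-fold sumset of `A`. -/
def Avoids {G : Type} [AddCommGroup G] (h : ℕ) (A : Finset G) : Prop :=
  ¬ ∃ (a : Fin h → G) (ε : Fin h → ℤ), Function.Injective a ∧ (∀ i, a i ∈ A) ∧
    (∀ i, ε i = 1 ∨ ε i = -1) ∧ ∑ i, ε i • a i = 0

/-- The quotient by `K` has a sequence of length `n` with no nonempty signed zero-sum
subsequence. -/
def Free {G : Type} [AddCommGroup G] (K : AddSubgroup G) (n : ℕ) : Prop :=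
  ∃ g : Fin n → G, ∀ c : Fin n → ℤ, (∀ i, c i = 0 ∨ c i = 1 ∨ c i = -1) →
    ∑ i, c i • g i ∈ K → c = 0

theorem result (h : ℕ) (hh : 1 ≤ h) : ∃ N0 : ℕ, ∀ (G : Type) [AddCommGroup G] [Finite G],
    Odd (Nat.card G) → N0 ≤ AddMonoid.exponent G → Nat.card G = h * AddMonoid.exponent G →
    ∃ d : ℕ, IsGreatest {n : ℕ | ∃ K : AddSubgroup G, K.index ≤ h ∧ Free K n} d ∧
      IsGreatest {n : ℕ | ∃ A : Finset G, A.card = n ∧ Avoids (AddMonoid.exponent G) A}
        (AddMonoid.exponent G - 1 + d) ∧
      d ≤ Nat.log 2 h ∧
      ((∃ φ : G →+ ZMod h, Function.Surjective φ) → d = Nat.log 2 h) := by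
  obtain ⟨N0, hN0⟩ := H25.Shc.upper h hh
  refine ⟨N0 + 1, ?_⟩
  intro G _ _ hodd hN hcard
  generalize AddMonoid.exponent G = N at *
  classical
  have := Fintype.ofFinite G
  have hidx : ∀ K : AddSubgroup G, K.index ≤ h ↔ N ≤ Nat.card K := by
    intro K
    have hK := K.card_mul_index
    have hp : 0 < Nat.card K := Nat.card_pos
    constructor
    · intro h1
      have : h * N ≤ h * Nat.card K := by
        rw [← hcard, ← hK, mul_comm]; exact Nat.mul_le_mul_right _ h1
      exact Nat.le_of_mul_le_mul_left this hh
    · intro h1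
      have : Nat.card K * K.index ≤ Nat.card K * h := by
        rw [hK, hcard, mul_comm]; exact Nat.mul_le_mul_right _ h1
      exact Nat.le_of_mul_le_mul_left this hp
  have hbd : ∀ n, (∃ K : AddSubgroup G, K.index ≤ h ∧ Free K n) → n ≤ Nat.log 2 h := by
    rintro n ⟨K, hK, g, hg⟩
    apply Nat.le_log_of_pow_le (by norm_num)
    refine le_trans ?_ hK
    rw [AddSubgroup.index_eq_card]
    have hinj : Function.Injective fun b : Fin n → Bool =>
        (QuotientAddGroup.mk (∑ i, (if b i then (1 : ℤ) else 0) • g i) : G ⧸ K) := by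
      intro b b' he
      rw [QuotientAddGroup.eq_iff_sub_mem, ← sum_sub_distrib] at he
      simp only [← sub_smul] at he
      have := hg _ (fun i => by cases b i <;> cases b' i <;> simp) he
      funext i
      have h1 := congrFun this i
      revert h1
      cases b i <;> cases b' i <;> simp
    have := Nat.card_le_card_of_injective _ hinj
    simpa using this
  have h0 : ∃ K : AddSubgroup G, K.index ≤ h ∧ Free K 0 :=
    ⟨⊤, by simpa using hh, Fin.elim0, fun c _ _ => Subsingleton.elim _ _⟩
  set d := Nat.findGreatest (fun n => ∃ K : AddSubgroup G, K.index ≤ h ∧ Free K n)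
    (Nat.log 2 h) with hd
  have hd1 : ∃ K : AddSubgroup G, K.index ≤ h ∧ Free K d :=
    Nat.findGreatest_spec (P := fun n => ∃ K : AddSubgroup G, K.index ≤ h ∧ Free K n)
      (Nat.zero_le _) h0
  have hd2 : ∀ n, (∃ K : AddSubgroup G, K.index ≤ h ∧ Free K n) → n ≤ d :=
    fun n hn => Nat.le_findGreatest (hbd n hn) hn
  refine ⟨d, ⟨hd1, hd2⟩, ⟨?_, ?_⟩, hbd d hd1, ?_⟩
  · obtain ⟨K, hK, g, hg⟩ := hd1
    have cK : (univ.filter fun x => x ∈ K).card = Nat.card K := by
      rw [Nat.card_eq_fintype_card, Fintype.card_subtype]
    obtain ⟨W, hW, hWc⟩ := exists_subset_card_eq (s := univ.filter fun x => x ∈ K) (n := N - 1)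
      (by have := (hidx K).1 hK; omega)
    have hWK : ∀ x ∈ W, x ∈ K := fun x hx => (mem_filter.1 (hW hx)).2
    have hnot : ∀ j, g j ∉ K := by
      intro j hj
      have := hg (Pi.single j 1) (fun i => by
        by_cases e : i = j
        · subst e; simp
        · simp [Pi.single_eq_of_ne e]) (by simpa [Pi.single_apply] using hj)
      simpa using congrFun this j
    have hginj : Function.Injective g := by
      intro i j he
      by_contra hne
      have := hg (Pi.single i 1 - Pi.single j 1) (fun l => by
        by_cases e : l = i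
        · subst e; simp [Pi.single_eq_of_ne hne]
        · by_cases e' : l = j
          · subst e'; simp [Pi.single_eq_of_ne e]
          · simp [Pi.single_eq_of_ne e, Pi.single_eq_of_ne e']) (by
        simp [sub_smul, sum_sub_distrib, Pi.single_apply, he])
      have h1 := congrFun this i
      simp [Pi.single_eq_of_ne hne] at h1
    have hdis : Disjoint W (univ.image g) := by
      rw [disjoint_left]
      intro x h1 h2
      obtain ⟨j, _, rfl⟩ := mem_image.1 h2
      exact hnot j (hWK _ h1)
    refine ⟨W ∪ univ.image g, ?_, ?_⟩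
    · rw [card_union_of_disjoint hdis, hWc, card_image_of_injective _ hginj, card_univ,
        Fintype.card_fin]
    · rintro ⟨a, ε, hinj, hmem, hε, hs⟩
      let c : Fin d → ℤ := fun j => ∑ i ∈ univ.filter (fun i => a i = g j), ε i
      have hc : ∀ j i, a i = g j → c j = ε i := by
        intro j i hi
        have : univ.filter (fun i => a i = g j) = {i} := by
          ext l
          simp only [mem_filter, mem_univ, true_and, mem_singleton]
          exact ⟨fun h => hinj (h.trans hi.symm), fun h => h ▸ hi⟩
        simp only [c, this, sum_singleton]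
      have hc0 : c = 0 := by
        apply hg
        · intro j
          by_cases e : ∃ i, a i = g j
          · obtain ⟨i, hi⟩ := e
            rw [hc j i hi]; exact Or.inr (hε i)
          · left
            apply sum_eq_zero
            intro i hi
            exact absurd ⟨i, (mem_filter.1 hi).2⟩ e
        · have e1 : ∑ j, c j • g j = ∑ i, ∑ j, if a i = g j then ε i • g j else 0 := by
            rw [sum_comm]
            refine sum_congr rfl fun j _ => ?_
            simp only [c]
            rw [sum_smul, sum_filter]
          have e2 : ∑ j, c j • g j =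
              ∑ i, ((∑ j, if a i = g j then ε i • g j else 0) - ε i • a i) := by
            rw [sum_sub_distrib, hs, sub_zero, e1]
          rw [e2]
          refine K.sum_mem fun i _ => ?_
          rcases mem_union.1 (hmem i) with h1 | h1
          · refine K.sub_mem (K.sum_mem fun j _ => ?_) (K.zsmul_mem (hWK _ h1) _)
            rw [if_neg (fun e => hnot j (by rw [← e]; exact hWK _ h1))]
            exact K.zero_mem
          · obtain ⟨j, _, hj⟩ := mem_image.1 h1
            rw [sum_eq_single j, if_pos hj.symm, hj, sub_self]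
            · exact K.zero_mem
            · intro l _ hl
              exact if_neg fun e => hl (hginj (e.symm.trans hj.symm))
            · intro h; exact absurd (mem_univ j) h
      have hin : ∀ i, a i ∈ W := by
        intro i
        rcases mem_union.1 (hmem i) with h1 | h1
        · exact h1
        · obtain ⟨j, _, hj⟩ := mem_image.1 h1
          have := hc j i hj.symm
          rw [hc0] at this
          rcases hε i with h | h <;> rw [h] at this <;> simp at this
      have : (univ.image a).card ≤ W.card := by
        apply card_le_card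
        intro x hx
        obtain ⟨i, _, rfl⟩ := mem_image.1 hx
        exact hin i
      rw [card_image_of_injective _ hinj, card_univ, Fintype.card_fin] at this
      omega
  · rintro n ⟨A, rfl, hA⟩
    by_contra hlt
    apply hA
    obtain ⟨B, hB, hBc, ε, hε, hs⟩ := hN0 G hodd N (by omega) hcard d (by
      intro K hK g
      by_contra hcon
      push Not at hcon
      have := hd2 (d + 1) ⟨K, (hidx K).2 hK, g, hcon⟩
      omega) A (by omega)
    let e := (B.equivFinOfCardEq hBc).symm
    refine ⟨fun i => (e i).1, fun i => ε (e i).1, Subtype.val_injective.comp e.injective,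
      fun i => hB (e i).2, fun i => hε _, ?_⟩
    rw [Equiv.sum_comp e (fun b : B => ε b.1 • b.1), sum_coe_sort B (fun g => ε g • g)]
    exact hs
  · rintro ⟨φ, hφ⟩
    refine le_antisymm (hbd d hd1) (hd2 _ ⟨φ.ker, ?_, ?_⟩)
    · rw [AddSubgroup.index_ker, AddMonoidHom.range_eq_top.2 hφ]
      simp
    · choose g hg using fun i : Fin (Nat.log 2 h) => hφ ((2 ^ (i : ℕ) : ℤ) : ZMod h)
      refine ⟨g, fun c hc hs => ?_⟩
      obtain ⟨p1, p2⟩ := H25.Shc.pow2 _ c hc
      apply p2
      rw [AddMonoidHom.mem_ker, map_sum] at hs
      have e : ((∑ i, c i * 2 ^ (i : ℕ) : ℤ) : ZMod h) = 0 := by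
        rw [← hs, Int.cast_sum]
        refine sum_congr rfl fun i _ => ?_
        rw [map_zsmul, hg, zsmul_eq_mul, Int.cast_mul]
      rw [ZMod.intCast_zmod_eq_zero_iff_dvd] at e
      apply Int.eq_zero_of_abs_lt_dvd e
      have : 2 ^ Nat.log 2 h ≤ h := Nat.pow_log_le_self 2 (by omega)
      have : ((2 : ℤ) ^ Nat.log 2 h) ≤ h := by exact_mod_cast this
      omega

end Pool.Agent.Results.MP_8ac08c_co.OddOrder
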