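import Mathlib
import Pool.Agent.H25.ShcDefs
import Pool.Agent.H25.Shc7

namespace Pool.Agent.Results.MP_8ac08c_co.RankTwo

open Finset H25.Shc

/-- The extra condition for odd `h`. -/
def CondOdd (h N : ℕ) : Prop :=
  N % 4 = 2 ∨ ∃ K : AddSubgroup (ZMod h × ZMod N),
    Even (Nat.card K) ∧ K.index < h ∧ Free K (Nat.log 2 h)

/-- The extra condition for even `h`. -/
def CondEven (h N : ℕ) : Prop :=
  ∃ K : AddSubgroup (ZMod h × ZMod N),
    (∀ x, x + x = 0 → x ∈ K) ∧ 4 * K.index < 3 * h ∧ Free K (Nat.log 2 h)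

theorem result (h : ℕ) (hh : 1 ≤ h) : ∃ N0 : ℕ, ∀ N : ℕ, N0 ≤ N → h ∣ N →
    AddMonoid.exponent (ZMod h × ZMod N) = N ∧
    (Odd h → ¬ CondOdd h N → IsTau (ZMod h × ZMod N) N (N - 1 + Nat.log 2 h)) ∧
    (Odd h → CondOdd h N → IsTau (ZMod h × ZMod N) N (N + Nat.log 2 h)) ∧
    (Even h → ¬ CondEven h N → IsTau (ZMod h × ZMod N) N (N + Nat.log 2 h)) ∧
    (Even h → CondEven h N → IsTau (ZMod h × ZMod N) N (N + 1 + Nat.log 2 h)) := by
  obtain ⟨N1, hN1⟩ := upper h hh
  obtain ⟨N2, hN2⟩ := upperE h hh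
  refine ⟨N1 + N2 + 20 * h, fun N hN hdvd => ?_⟩
  have : NeZero h := ⟨by omega⟩
  have : NeZero N := ⟨by omega⟩
  have hcard : Nat.card (ZMod h × ZMod N) = h * N := by simp
  have t4 : ∀ inst : DecidablePred fun x : ZMod h × ZMod N => x + x = 0,
      (@filter _ _ inst univ).card ≤ 4 := fun inst => by
    refine le_trans (card_le_card (t := (univ.filter fun x : ZMod h => x + x = 0) ×ˢ
      (univ.filter fun x : ZMod N => x + x = 0)) fun x hx => ?_) ?_
    · have := (mem_filter.1 hx).2
      exact mem_product.2 ⟨mem_filter.2 ⟨mem_univ _, congrArg Prod.fst this⟩,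
        mem_filter.2 ⟨mem_univ _, congrArg Prod.snd this⟩⟩
    · rw [card_product]
      exact Nat.mul_le_mul (ztwo h) (ztwo N)
  have t2 : ∀ inst : DecidablePred fun x : ZMod h × ZMod N => x + x = 0, Odd h →
      (@filter _ _ inst univ).card ≤ 2 := fun inst ho => by
    refine le_trans (card_le_card (t := ({0} : Finset (ZMod h)) ×ˢ
      (univ.filter fun x : ZMod N => x + x = 0)) fun x hx => ?_) ?_
    · have := (mem_filter.1 hx).2
      exact mem_product.2 ⟨mem_singleton.2 (zodd h ho _ (congrArg Prod.fst this)),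
        mem_filter.2 ⟨mem_univ _, congrArg Prod.snd this⟩⟩
    · rw [card_product, card_singleton, one_mul]
      exact ztwo N
  have t3 : ∀ inst : DecidablePred fun x : ZMod h × ZMod N => x + x = 0, Even h →
      3 ≤ (@filter _ _ inst univ).card := fun inst he => by
    obtain ⟨a1, a2⟩ := zhalf h he (by omega)
    obtain ⟨b1, b2⟩ := zhalf N (he.two_dvd.trans hdvd |> even_iff_two_dvd.2) (by omega)
    refine two_lt_card_iff.2 ⟨0, (((h / 2 : ℕ) : ZMod h), 0), (0, ((N / 2 : ℕ) : ZMod N)),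
      mem_filter.2 ⟨mem_univ _, by simp⟩, mem_filter.2 ⟨mem_univ _, Prod.ext a1 (by simp)⟩,
      mem_filter.2 ⟨mem_univ _, Prod.ext (by simp) b1⟩, fun e => a2 (congrArg Prod.fst e).symm,
      fun e => b2 (congrArg Prod.snd e).symm, fun e => a2 (congrArg Prod.fst e)⟩
  have hhalf : Odd h → N % 4 = 0 → ∀ x : ZMod h × ZMod N, x + x = 0 → ∃ g, g + g = x := by
    intro ho h4 x hx
    refine ⟨(0, ((x.2.val / 2 : ℕ) : ZMod N)), Prod.ext ?_ ?_⟩
    · rw [zodd h ho _ (congrArg Prod.fst hx)]; simp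
    · show ((x.2.val / 2 : ℕ) : ZMod N) + ((x.2.val / 2 : ℕ) : ZMod N) = x.2
      have e : x.2.val / 2 + x.2.val / 2 = x.2.val := by
        rcases (ZMod.neg_eq_self_iff x.2).1
          (neg_eq_iff_add_eq_zero.2 (congrArg Prod.snd hx)) with h1 | h1
        · rw [h1, ZMod.val_zero]
        · omega
      rw [← Nat.cast_add, e, ZMod.natCast_zmod_val]
  have up : ∀ s, Even N → _ := fun s he =>
    hN2 (ZMod h × ZMod N) N (by omega) he hcard (t4 _) (t2 _) hhalf s
  obtain ⟨k1, k2⟩ := free_ker h hh (AddMonoidHom.fst (ZMod h) (ZMod N)) Prod.fst_surjective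
  have k3 : Nat.card (AddMonoidHom.fst (ZMod h) (ZMod N)).ker = N := by
    have := (AddMonoidHom.fst (ZMod h) (ZMod N)).ker.card_mul_index
    rw [k1, hcard, mul_comm] at this
    exact Nat.eq_of_mul_eq_mul_left hh this
  have big3 : ∀ K : AddSubgroup (ZMod h × ZMod N), 4 * K.index < 3 * h →
      4 * N + 24 ≤ 3 * Nat.card K := by
    intro K hK
    have h1 := K.card_mul_index
    rw [hcard] at h1
    by_contra hc
    have h2 := Nat.mul_le_mul_left (Nat.card K) (show 4 * K.index + 1 ≤ 3 * h from hK)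
    have h3 := Nat.mul_le_mul_left h (show 3 * Nat.card K ≤ 4 * N + 23 by omega)
    have h4 : N ≤ Nat.card K := by
      by_contra h5
      have := Nat.mul_le_mul_left h (show Nat.card K ≤ N by omega)
      nlinarith
    nlinarith
  refine ⟨?_, fun ho hc => ?_, fun ho hc => ?_, fun he hc => ?_, fun he hc => ?_⟩
  · rw [AddMonoid.exponent_prod, ZMod.exponent, ZMod.exponent]
    exact Nat.lcm_eq_right hdvd
  · refine tau_of _ _ (low1 _ N _ (by omega) k3.ge k2) fun A hA => ?_
    unfold CondOdd at hc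
    rw [not_or] at hc
    rcases Nat.even_or_odd N with he | hNo
    · exact up _ he (by omega) le_rfl (fun _ => ⟨ho, by obtain ⟨a, ha⟩ := he; omega, hc.2⟩)
        (fun e => by omega) A (by omega)
    · obtain ⟨B, hB, hBc, ε, hε, hs⟩ := hN1 (ZMod h × ZMod N) (hcard ▸ ho.mul hNo) N (by omega)
        hcard (Nat.log 2 h) (fun K hK => nf K _ (not_free K h (by
          have h1 := K.card_mul_index
          have : Nat.card K * K.index ≤ Nat.card K * h := by
            rw [h1, hcard, mul_comm]; exact Nat.mul_le_mul_right _ hK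
          exact Nat.le_of_mul_le_mul_left this Nat.card_pos))) A (by omega)
      exact toFin N A B hB hBc ε hε hs
  · have he : Even N := by
      rcases hc with h1 | ⟨K, h1, -, -⟩
      · exact ⟨N / 2, by omega⟩
      · by_contra h2
        have h3 := K.card_mul_index
        rw [hcard] at h3
        exact Nat.not_even_iff_odd.2 (ho.mul (Nat.not_even_iff_odd.1 h2)) (h3 ▸ h1.mul_right _)
    refine tau_of _ _ ?_ fun A hA => up (Nat.log 2 h + 1) he (by omega) (by omega)
      (fun e => by omega) (fun _ => Or.inl ho) A (by omega)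
    rcases hc with h1 | ⟨K, h1, h2, h3⟩
    · exact low2 _ N _ (t2 _ ho) (k3.symm ▸ he) he (by omega) (Or.inl ⟨h1, k3.ge⟩) k2
    · refine low2 K N _ (t2 _ ho) h1 he (by omega) (Or.inr ?_) h3
      have h4 := K.card_mul_index
      rw [hcard] at h4
      by_contra hc
      have h5 := Nat.mul_le_mul (show Nat.card K ≤ N + 1 by omega)
        (show K.index + 1 ≤ h from h2)
      have h6 : N ≤ Nat.card K := by
        by_contra h7
        have := Nat.mul_le_mul (show Nat.card K + 1 ≤ N by omega) h2.le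
        nlinarith
      nlinarith
  · have hNe : Even N := even_iff_two_dvd.2 (he.two_dvd.trans hdvd)
    refine tau_of _ _ ?_ fun A hA => up (Nat.log 2 h + 1) hNe (by omega) (by omega)
      (fun e => by omega) (fun _ => Or.inr hc) A (by omega)
    obtain ⟨o, ho⟩ := he
    have hd : h / 2 ∣ h := ⟨2, by omega⟩
    obtain ⟨m1, m2⟩ := free_ker (h / 2) (by omega)
      ((ZMod.castHom hd (ZMod (h / 2))).toAddMonoidHom.comp (AddMonoidHom.fst (ZMod h) (ZMod N)))
      ((ZMod.castHom_surjective hd).comp Prod.fst_surjective)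
    have := low3 _ N _ (t4 _) (t3 _ ⟨o, ho⟩) (fun x hx => by
      show ZMod.castHom hd (ZMod (h / 2)) x.1 = 0
      rcases (ZMod.neg_eq_self_iff x.1).1
        (neg_eq_iff_add_eq_zero.2 (congrArg Prod.fst hx)) with h1 | h1
      · rw [h1, map_zero]
      · rw [← ZMod.natCast_zmod_val x.1, map_natCast, show x.1.val = h / 2 by omega,
          ZMod.natCast_self]) hNe (by omega) (big3 _ (by rw [m1]; omega)) m2
    have e1 : 0 < Nat.log 2 h := Nat.log_pos (by norm_num) (by omega)
    rwa [Nat.log_div_base, show N + 1 + (Nat.log 2 h - 1) = N + Nat.log 2 h by omega] at this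
  · have hNe : Even N := even_iff_two_dvd.2 (he.two_dvd.trans hdvd)
    refine tau_of _ _ ?_ fun A hA => up (Nat.log 2 h + 2) hNe (by omega) (by omega)
      (fun e => by omega) (fun e => by omega) A (by omega)
    obtain ⟨K, h1, h2, h3⟩ := hc
    exact low3 K N _ (t4 _) (t3 _ he) h1 hNe (by omega) (big3 K h2) h3

end Pool.Agent.Results.MP_8ac08c_co.RankTwo
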