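import Mathlib
import Pool.Agent.H25.Shc1

namespace Pool.Agent.Results.MP_8ac08c_co.TwoPart

open Finset

/-- `0` is not in the restricted signed `h`-fold sumset of `A`. -/
def Avoids {G : Type} [AddCommGroup G] (h : ℕ) (A : Finset G) : Prop :=
  ¬ ∃ (a : Fin h → G) (ε : Fin h → ℤ), Function.Injective a ∧ (∀ i, a i ∈ A) ∧
    (∀ i, ε i = 1 ∨ ε i = -1) ∧ ∑ i, ε i • a i = 0

theorem result (m k : ℕ) (hm : 1 ≤ m) (hk : Odd k) (hk3 : 3 ≤ k)
    (h : 2 ^ m * (k - Nat.totient k) ≤ k + 1) :
    AddMonoid.exponent ((Fin m → ZMod 2) × ZMod k) = 2 * k ∧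
    IsGreatest {n : ℕ | ∃ A : Finset ((Fin m → ZMod 2) × ZMod k),
      A.card = n ∧ Avoids (2 * k) A} (2 * k + m - 1) := by
  classical
  have : NeZero k := ⟨by omega⟩
  obtain ⟨n, rfl⟩ : ∃ n, m = n + 1 := ⟨m - 1, by omega⟩
  have z2 : ∀ a : ZMod 2, a + a = 0 := by decide
  have h2 : ∀ v : Fin (n + 1) → ZMod 2, v + v = 0 := fun v => funext fun i => z2 (v i)
  have hsg : ∀ (d : ℤ) (v : Fin (n + 1) → ZMod 2), (d = 1 ∨ d = -1) → d • v = v := by
    rintro d v (rfl | rfl)
    · simp
    · rw [neg_one_zsmul, neg_eq_iff_add_eq_zero, h2]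
  refine ⟨?_, ?_, ?_⟩
  · rw [AddMonoid.exponent_prod, AddMonoid.exponent_pi, ZMod.exponent, ZMod.exponent]
    have : (univ.lcm fun _ : Fin (n + 1) => 2) = 2 := by
      apply Nat.dvd_antisymm
      · exact Finset.lcm_dvd fun _ _ => dvd_rfl
      · exact Finset.dvd_lcm (f := fun _ : Fin (n + 1) => 2) (mem_univ 0)
    rw [this]
    exact Nat.Coprime.lcm_eq_mul (Nat.coprime_two_left.2 hk)
  · let f1 : ZMod 2 × ZMod k → (Fin (n + 1) → ZMod 2) × ZMod k :=
      fun p => (Pi.single 0 p.1, p.2)
    let f2 : Fin n → (Fin (n + 1) → ZMod 2) × ZMod k := fun j => (Pi.single j.succ 1, 0)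
    have i1 : Function.Injective f1 := by
      rintro ⟨b, x⟩ ⟨c, y⟩ he
      have e1 := congrArg (fun p => p.1 0) he
      have e2 := congrArg Prod.snd he
      simp only [f1, Pi.single_eq_same] at e1 e2
      rw [e1, e2]
    have i2 : Function.Injective f2 := by
      intro i j he
      have e1 := congrArg (fun p => p.1 i.succ) he
      simp only [f2, Pi.single_eq_same] at e1
      by_contra hne
      rw [Pi.single_eq_of_ne (fun h => hne (Fin.succ_injective _ h))] at e1
      exact absurd e1 (by decide)
    have v1 : ∀ p (j : Fin n), (f1 p).1 j.succ = 0 := fun p j => by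
      simp [f1]
    have v2 : ∀ j : Fin n, (f2 j).1 j.succ = 1 := fun j => by simp [f2]
    have hdis : Disjoint (univ.image f1) (univ.image f2) := by
      rw [disjoint_left]
      intro g g1 g2
      obtain ⟨p, _, rfl⟩ := mem_image.1 g1
      obtain ⟨j, _, he⟩ := mem_image.1 g2
      have := v1 p j
      rw [← he, v2] at this
      exact absurd this (by decide)
    have c1 : (univ.image f1).card = 2 * k := by
      rw [card_image_of_injective _ i1, card_univ, Fintype.card_prod, ZMod.card, ZMod.card]
    refine ⟨univ.image f1 ∪ univ.image f2, ?_, ?_⟩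
    · rw [card_union_of_disjoint hdis, c1, card_image_of_injective _ i2, card_univ,
        Fintype.card_fin]
      omega
    · rintro ⟨a, ε, hinj, hmem, hε, hs⟩
      have hs1 : ∑ i, (a i).1 = 0 := by
        have := congrArg Prod.fst hs
        rw [Prod.fst_sum] at this
        rw [← show (0 : (Fin (n + 1) → ZMod 2) × ZMod k).1 = 0 from rfl, ← this]
        exact sum_congr rfl fun i _ => (hsg _ _ (hε i)).symm
      have hin : ∀ i, a i ∈ univ.image f1 := by
        intro i
        rcases mem_union.1 (hmem i) with h1 | h1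
        · exact h1
        · exfalso
          obtain ⟨j, _, he⟩ := mem_image.1 h1
          have := congrFun hs1 j.succ
          rw [Finset.sum_apply, sum_eq_single i, ← he, v2, Pi.zero_apply] at this
          · exact absurd this (by decide)
          · intro i' _ hne
            rcases mem_union.1 (hmem i') with h3 | h3
            · obtain ⟨p, _, hp⟩ := mem_image.1 h3
              rw [← hp, v1]
            · obtain ⟨j', _, hp⟩ := mem_image.1 h3
              rw [← hp]
              refine Pi.single_eq_of_ne (fun h => hne (hinj ?_)) _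
              rw [← hp, ← he, Fin.succ_injective _ h]
          · intro h; exact absurd (mem_univ i) h
      have himg : univ.image a = univ.image f1 := by
        apply eq_of_subset_of_card_le
        · intro g hg
          obtain ⟨i, _, rfl⟩ := mem_image.1 hg
          exact hin i
        · rw [c1, card_image_of_injective _ hinj, card_univ, Fintype.card_fin]
      have e0 := congrFun hs1 0
      rw [Finset.sum_apply,
        ← sum_image (s := univ) (g := a) (f := fun g => g.1 0) (fun x _ y _ h => hinj h), himg,
        sum_image (fun x _ y _ h => i1 h)] at e0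
      simp only [f1, Pi.single_eq_same, Fintype.sum_prod_type, sum_const, card_univ, ZMod.card,
        Pi.zero_apply] at e0
      have e1 : ∑ b : ZMod 2, b = 1 := by decide
      rw [← Finset.smul_sum, e1, nsmul_one] at e0
      have e2 : Even k := (ZMod.natCast_eq_zero_iff_even).1 e0
      exact (Nat.not_even_iff_odd.2 hk) e2
  · rintro N ⟨A, rfl, hA⟩
    by_contra hlt
    apply hA
    have hphi : Nat.totient k < k := Nat.totient_lt k (by omega)
    have hV : Fintype.card (Fin (n + 1) → ZMod 2) = 2 ^ (n + 1) := by simp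
    have hpow : 2 ^ (n + 1) ≤ 2 * k := by
      have : 2 ^ (n + 1) * 1 ≤ 2 ^ (n + 1) * (k - Nat.totient k) :=
        Nat.mul_le_mul_left _ (by omega)
      omega
    obtain ⟨B, hB, hBc, hBs⟩ := H25.Shc.zsum h2 Prod.fst (n + 1) k hV hpow A (by omega)
    obtain ⟨S, -, hS, hc⟩ := H25.Shc.signs hk Prod.snd B
    have hu : (univ.filter fun x : ZMod k => IsUnit x).card = Nat.totient k := by
      rw [← ZMod.card_units_eq_totient, ← card_univ,
        ← card_image_of_injective _ (Units.val_injective (α := ZMod k))]
      congr 1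
      ext x
      simp [IsUnit]
    have hnu : (univ.filter fun x : ZMod k => ¬ IsUnit x).card = k - Nat.totient k := by
      have := card_filter_add_card_filter_not (s := (univ : Finset (ZMod k)))
        (fun x => IsUnit x)
      rw [hu, card_univ, ZMod.card] at this
      omega
    have hb : (B.filter fun g => ¬ IsUnit g.2).card ≤ 2 ^ (n + 1) * (k - Nat.totient k) := by
      rw [← hV, ← hnu, ← card_univ, ← card_product]
      apply card_le_card
      intro g hg
      simpa using (mem_filter.1 hg).2
    have hb2 := card_filter_add_card_filter_not (s := B) (fun g => IsUnit g.2)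
    have hall : S = univ := by
      apply eq_univ_of_card
      have := card_le_univ S
      rw [ZMod.card] at this ⊢
      omega
    obtain ⟨ε, hε, hsum⟩ := hS 0 (hall ▸ mem_univ _)
    let e := (B.equivFinOfCardEq hBc).symm
    refine ⟨fun i => (e i).1, fun i => ε (e i).1, Subtype.val_injective.comp e.injective,
      fun i => hB (e i).2, fun i => hε _, ?_⟩
    rw [Equiv.sum_comp e (fun b : B => ε b.1 • b.1), sum_coe_sort B (fun g => ε g • g)]
    ext1
    · rw [Prod.fst_sum, show (0 : (Fin (n + 1) → ZMod 2) × ZMod k).1 = 0 from rfl, ← hBs]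
      exact sum_congr rfl fun g _ => hsg _ _ (hε g)
    · rw [Prod.snd_sum]; exact hsum

end Pool.Agent.Results.MP_8ac08c_co.TwoPart
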